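import Pool.Agent.H842R6.Final

/-!
# Action-quadratic metrics on compact homogeneous spaces of rank at least two

Let `G/K` be a compact homogeneous space. A Riemannian metric on `G/K` is called *action-quadratic*
if its dual metric is a quadratic form with constant coefficients in the action fields of `G`:
`g* = ∑ Q_ij X_i* X_j*` with a constant symmetric matrix `Q` (`X_i*` the action fields of a basis of
the Lie algebra). Examples are the normal homogeneous metric, all its Cheeger deformations along
subgroups of `G` (also iterated ones), for `G = H × H`, `K = ΔH` all left-invariant metrics of the
group `H` and their mixtures with right-invariant ones, for `G/K = S^m × S^n` all metrics whose dual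
is a quadratic form in Killing fields of the round product.

We show: if the orthogonal complement of the Lie algebra of `K` contains two linearly independent
commuting vectors (i.e. if the normal homogeneous metric is not positively curved), then no
action-quadratic metric on `G/K` has positive sectional curvature.
-/

namespace Pool.Agent.Results.MP_4e0d62_gt.ActionQuadratic

open Pool.Agent.H842R6

/-- Let `K ⊆ G` be compact Lie groups (closed groups of unitary matrices) such that the orthogonal
complement of the Lie algebra of `K` in the Lie algebra of `G` contains two linearly independent
commuting vectors. Then every Riemannian metric on `G/K` whose dual metric is a quadratic form with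
constant coefficients in the action fields has a tangent plane with sectional curvature `≤ 0`. -/
theorem result {N : ℕ} {G K : CompactGroup N} (_hKG : K.carrier ⊆ G.carrier)
    (hrank : ∃ a b : Alg G, LinearIndependent ℝ ![a, b] ∧ brk a b = 0 ∧
      (∀ X : Alg G, X.1 ∈ K.alg → ip a X = 0) ∧ (∀ X : Alg G, X.1 ∈ K.alg → ip b X = 0))
    (g : Metric G K) (hg : g.ActionQuadratic) :
    ∃ (p : Pt G) (A B : Alg G), (∀ s t : ℝ, (s • A + t • B).1 ∈ K.alg → s = 0 ∧ t = 0) ∧
      g.sec A B p ≤ 0 :=
  main hrank g hg

end Pool.Agent.Results.MP_4e0d62_gt.ActionQuadratic
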