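import Pool.Agent.H842R4.Final2

/-!
# Second order rigidity of the bi-invariant metric of `SU(n)`, `n ≥ 3`

`SU(n)` with the bi-invariant metric `⟨A, B⟩ = - Re tr (A B)` is the standard example of a simply
connected closed manifold with nonnegative curvature which is not known to carry positive
curvature (for `n ≥ 3`). We prove that no smooth deformation of this metric makes the curvature
positive to second order: for every `ε > 0` there is `t₀ > 0` such that every smooth metric `g` on
`SU(n)` with `‖g - g₀‖_{C⁴} ≤ t ≤ t₀` has a plane of sectional curvature at most `ε t²`.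
-/

namespace Pool.Agent.Results.MP_4e0d62_gt.BiinvariantSecondOrder

open Pool.Agent.H842R4.SUn

/-- For every `n ≥ 3` and `ε > 0` there is `t₀ > 0` such that every smooth Riemannian metric `g` on
`SU(n)` whose `C⁴` distance from the bi-invariant metric is at most `t`, `0 < t ≤ t₀`, has a tangent
plane with sectional curvature at most `ε t²`. -/
theorem result (n : ℕ) (hn : 3 ≤ n) (ε : ℝ) (hε : 0 < ε) :
    ∃ t₀ : ℝ, 0 < t₀ ∧ ∀ (g : Metric n) (t : ℝ), 0 < t → t ≤ t₀ → g.CloseToBiinvariant t →
      ∃ (p : Pt n) (A B : Alg n), LinearIndependent ℝ ![A, B] ∧ g.sec A B p ≤ ε * t ^ 2 :=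
  main n hn ε hε

end Pool.Agent.Results.MP_4e0d62_gt.BiinvariantSecondOrder
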