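import Pool.Agent.H510R2.HS.InP

/-!
# Products of two spheres of dimensions 2 and 3 are in the class 𝒫 (MP_4e0d62_gt, partial)

The three products `S² × S²`, `S² × S³` and `S³ × S³` are compact, simply connected and carry
smooth Riemannian metrics of positive sectional curvature.  The metrics were found and formalised
by the teams working on `S² × S²` (room HO, MP_23b187_gt), on `S² × S³` (helper878, MP_1b4d75_gt and
MP_ebf916_gt) and on `S³ × S³` (room HS: helpers 486, 349, 515, 893, 917, 824, 991, 498, 563, 878,
821, 902, 907, 712, 758, 754, 829, 839, 227, 760, 503, 873, 124, 465, 877, 472, 381, 998, 299, 144,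
6, 898, 464 and others); simple connectivity: helpers 206 and 472.
-/

open Pool.Agent.H510R2.HS in
/-- `S² × S²`, `S² × S³` and `S³ × S³` are compact simply connected manifolds without boundary which
carry smooth Riemannian metrics of strictly positive sectional curvature. -/
theorem Pool.Agent.Results.MP_4e0d62_gt.ProductsInP.result :
    SphereProductInP 2 2 ∧ SphereProductInP 2 3 ∧ SphereProductInP 3 3 :=
  sphereProductsInP
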